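import Pool.Agent.H250R3.Berg.Stmts

/-! Rotation invariance of the domain. -/

set_option autoImplicit false

open Polynomial MeasureTheory
open scoped ComplexConjugate

namespace Pool.Agent.H358R3.Berg

open Pool.Agent.H250R3.Berg

lemma Adm.norm {N : ℕ} {ζ : ℂ} (h : Adm N ζ) : ‖ζ‖ = 1 ∧ ζ ^ N = 1 := by
  rcases h with ⟨rfl, rfl⟩ | ⟨rfl, rfl⟩
  · have h3 : √3 * √3 = 3 := Real.mul_self_sqrt (by norm_num)
    have hp : (⟨-1 / 2, √3 / 2⟩ : ℂ) ^ 3 = 1 := by
      apply Complex.ext
      · simp only [pow_succ, pow_zero, one_mul, Complex.mul_re, Complex.mul_im, Complex.one_re]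
        nlinarith [h3]
      · simp only [pow_succ, pow_zero, one_mul, Complex.mul_re, Complex.mul_im, Complex.one_im]
        linear_combination (-√3 / 8) * h3
    refine ⟨?_, hp⟩
    exact Complex.norm_eq_one_of_pow_eq_one hp (by norm_num)
  · refine ⟨by simp, ?_⟩
    exact Complex.I_pow_four

theorem taskRot : TaskRot := by
  intro N ζ hA f
  obtain ⟨h1, h2⟩ := Adm.norm hA
  let c : Circle := ⟨ζ, by simpa [Submonoid.unitSphere] using h1⟩
  let e : ℂ ≃ₗᵢ[ℝ] ℂ := rotation c
  have he : ∀ z, e z = ζ * z := fun z => rfl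
  have hset : e '' {w : ℂ | w ^ N = 1} = {w : ℂ | w ^ N = 1} := by
    ext w
    constructor
    · rintro ⟨z, hz, rfl⟩
      rw [he]
      simp only [Set.mem_ofPred_eq] at hz ⊢
      rw [mul_pow, h2, hz, one_mul]
    · intro hw
      refine ⟨e.symm w, ?_, by simp⟩
      have h3 : w = ζ * e.symm w := by rw [← he]; simp
      simp only [Set.mem_ofPred_eq] at hw ⊢
      rw [h3, mul_pow, h2, one_mul] at hw
      exact hw
  have himg : e '' (GN N) = GN N := by
    unfold GN
    have h4 : e '' (interior (convexHull ℝ {w : ℂ | w ^ N = 1})) =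
        interior (e '' (convexHull ℝ {w : ℂ | w ^ N = 1})) :=
      e.toHomeomorph.image_interior _
    have h5 : e '' (convexHull ℝ {w : ℂ | w ^ N = 1}) =
        convexHull ℝ (e '' {w : ℂ | w ^ N = 1}) :=
      (e.toLinearEquiv.toLinearMap).image_convexHull _
    rw [h4, h5, hset]
  have hpre : e ⁻¹' (GN N) = GN N := by
    conv_lhs => rw [← himg]
    exact Set.preimage_image_eq _ e.injective
  have hmp : MeasurePreserving e volume volume := e.measurePreserving
  have := hmp.setIntegral_preimage_emb e.toHomeomorph.measurableEmbedding f (GN N)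
  rw [hpre] at this
  exact this

end Pool.Agent.H358R3.Berg
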